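import Mathlib
import Pool.Agent.Y419.LC.SIG
import Pool.Agent.Y419.LC.LCP
import Pool.Agent.Y789.SG.Real
import Pool.Agent.Y789.SG.ExistF
import Pool.Agent.H33R4.Expl

/-!
# The `Σ`-Leopoldt conjecture for quadratic characters which come from the real subfield
-/

set_option autoImplicit false

namespace Pool.Agent.R89.RQ

open NumberField IntermediateField Pool.Agent.W289.SL
open Pool.Agent.H637R2.Leo (Leopoldt)

section dbl

variable {d : ℕ} (a : Fin d → ℤ)

/-- `a` and `-a` -/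
def dbl : Fin (d + d) → ℤ := Fin.append a (fun i => -a i)

lemma dbl_abs (i : Fin (d + d)) : ∃ j, dbl a i = a j ∨ dbl a i = -a j := by
  refine Fin.addCases (fun j => ?_) (fun j => ?_) i
  · exact ⟨j, Or.inl (by rw [dbl, Fin.append_left])⟩
  · exact ⟨j, Or.inr (by rw [dbl, Fin.append_right])⟩

lemma dbl_inj (ha0 : ∀ i, a i ≠ 0) (ha : Function.Injective fun i => |a i|) :
    Function.Injective (dbl a) := by
  intro i j
  refine Fin.addCases (fun i => ?_) (fun i => ?_) i <;>
    refine Fin.addCases (fun j => ?_) (fun j => ?_) j <;> intro h <;>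
    simp only [dbl, Fin.append_left, Fin.append_right] at h
  · have : i = j := ha (by simp only [h])
    rw [this]
  · exfalso
    have h1 : i = j := ha (by simp only [h, abs_neg])
    subst h1
    have := ha0 i
    omega
  · exfalso
    have h1 : i = j := ha (by simp only [← h, abs_neg])
    subst h1
    have := ha0 i
    omega
  · have : i = j := ha (by
      have h2 : a i = a j := by omega
      simp only [h2])
    rw [this]

lemma prod_dbl {R : Type} [CommRing R] (x : R) (t : ℤ) :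
    ∏ i, (x - ((dbl a i * t : ℤ) : R)) = ∏ i, (x ^ 2 - ((a i * t : ℤ) : R) ^ 2) := by
  rw [Fin.prod_univ_add, ← Finset.prod_mul_distrib]
  refine Finset.prod_congr rfl fun i _ => ?_
  simp only [dbl, Fin.append_left, Fin.append_right]
  push_cast
  ring

lemma dbl_gap (ha0 : ∀ i, a i ≠ 0) (ha : Function.Injective fun i => |a i|) {t : ℤ} (ht : 3 ≤ |t|)
    (i j : Fin (d + d)) (hij : i ≠ j) : 3 ≤ |dbl a i * t - dbl a j * t| := by
  rw [← sub_mul, abs_mul]
  have h1 : 1 ≤ |dbl a i - dbl a j| :=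
    Int.one_le_abs (sub_ne_zero.2 fun h => hij (dbl_inj a ha0 ha h))
  nlinarith [abs_nonneg t]

lemma sq_gap (ha : Function.Injective fun i => |a i|) {t : ℤ} (ht : 3 ≤ |t|)
    (i j : Fin d) (hij : i ≠ j) : 3 ≤ |(a i * t) ^ 2 - (a j * t) ^ 2| := by
  rw [mul_pow, mul_pow, ← sub_mul, abs_mul]
  have h1 : 1 ≤ |a i ^ 2 - a j ^ 2| := by
    apply Int.one_le_abs
    intro h
    apply hij
    apply ha
    exact sq_eq_sq_iff_abs_eq_abs _ _ |>.1 (sub_eq_zero.1 h)
  have h2 : 9 ≤ |t ^ 2| := by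
    rw [abs_pow]
    nlinarith
  nlinarith [abs_nonneg (t ^ 2)]

end dbl

section fields

variable {d : ℕ} (hd : 1 ≤ d) (a : Fin d → ℤ) (ha0 : ∀ i, a i ≠ 0)
  (ha : Function.Injective fun i => |a i|) {t : ℤ} (ht : 3 ≤ |t|)

include hd ha0 ha ht

lemma E_deg (E : Type) [Field E] [NumberField E] (θ : E)
    (hθ : ∏ i, (θ ^ 2 - ((a i * t : ℤ) : E) ^ 2) = 1) (hgen : IntermediateField.adjoin ℚ {θ} = ⊤) :
    Module.finrank ℚ E = d + d ∧ IsTotallyReal E := by
  have hgap := dbl_gap a ha0 ha ht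
  have hθ' : ∏ i, (θ - ((dbl a i * t : ℤ) : E)) = 1 := by rw [prod_dbl, hθ]
  refine ⟨?_, ?_⟩
  · refine Pool.Agent.H637R2.Leo.finrank_eq (by omega) (fun i => dbl a i * t) ?_ θ hθ' hgen
    intro i j hij
    by_contra hne
    have h := hgap i j hne
    simp only at hij
    rw [hij, sub_self, abs_zero] at h
    omega
  · exact Pool.Agent.Y789.SG.totally_real (by omega) (fun i => dbl a i * t) hgap E θ hθ' hgen

omit ha0 in
lemma F_deg (F : Type) [Field F] [NumberField F] (w : F)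
    (hw : ∏ i, (w - ((a i * t : ℤ) : F) ^ 2) = 1) (hgen : IntermediateField.adjoin ℚ {w} = ⊤) :
    Module.finrank ℚ F = d ∧ IsTotallyReal F := by
  have hgap := sq_gap a ha ht
  have hw' : ∏ i, (w - (((a i * t) ^ 2 : ℤ) : F)) = 1 := by
    rw [← hw]
    refine Finset.prod_congr rfl fun i _ => ?_
    push_cast
    rfl
  refine ⟨?_, ?_⟩
  · refine Pool.Agent.H637R2.Leo.finrank_eq hd (fun i => (a i * t) ^ 2) ?_ w hw' hgen
    intro i j hij
    by_contra hne
    have h := hgap i j hne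
    simp only at hij
    rw [hij, sub_self, abs_zero] at h
    omega
  · exact Pool.Agent.Y789.SG.totally_real hd (fun i => (a i * t) ^ 2) hgap F w hw' hgen

omit hd ha0 ha ht in
lemma gen_top {M : Type} [Field M] [NumberField M] (x : M) :
    IntermediateField.adjoin ℚ {AdjoinSimple.gen ℚ x} = (⊤ : IntermediateField ℚ (ℚ⟮x⟯)) := by
  rw [eq_top_iff]
  have h1 : lift (IntermediateField.adjoin ℚ {AdjoinSimple.gen ℚ x}) = ℚ⟮x⟯ := by
    rw [lift_adjoin_simple, AdjoinSimple.coe_gen]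
  intro z _
  have h2 : (z : M) ∈ lift (IntermediateField.adjoin ℚ {AdjoinSimple.gen ℚ x}) := by
    rw [h1]
    exact z.2
  exact (mem_lift z).1 h2

lemma sub_deg {M : Type} [Field M] [NumberField M] (x : M)
    (hx : ∏ i, (x ^ 2 - ((a i * t : ℤ) : M) ^ 2) = 1) :
    Module.finrank ℚ (ℚ⟮x⟯) = d + d ∧ IsTotallyReal (ℚ⟮x⟯) := by
  have : NumberField (ℚ⟮x⟯) := inferInstance
  refine E_deg hd a ha0 ha ht (ℚ⟮x⟯) (AdjoinSimple.gen ℚ x) ?_ (gen_top x)
  apply (algebraMap (ℚ⟮x⟯) M).injective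
  rw [map_prod, map_one, ← hx]
  refine Finset.prod_congr rfl fun i _ => ?_
  rw [map_sub, map_pow, map_pow, map_intCast, AdjoinSimple.algebraMap_gen]

/-- no square root in `F` -/
lemma not_sq_F (F : Type) [Field F] [NumberField F] (w : F)
    (hw : ∏ i, (w - ((a i * t : ℤ) : F) ^ 2) = 1) (hgen : IntermediateField.adjoin ℚ {w} = ⊤) :
    ¬ IsSquare w := by
  rintro ⟨s, hs⟩
  have h1 := (sub_deg hd a ha0 ha ht s (by rw [pow_two s, ← hs]; exact hw)).1
  have h2 := (F_deg hd a ha ht F w hw hgen).1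
  have h3 : Module.finrank ℚ (ℚ⟮s⟯) ≤ Module.finrank ℚ F := Submodule.finrank_le (R := ℚ) (M := F)
    (Subalgebra.toSubmodule (ℚ⟮s⟯).toSubalgebra)
  omega

/-- no square root in a totally complex quadratic extension -/
lemma not_sq_K (F : Type) [Field F] [NumberField F] (w : F)
    (hw : ∏ i, (w - ((a i * t : ℤ) : F) ^ 2) = 1) (hgen : IntermediateField.adjoin ℚ {w} = ⊤)
    (K : Type) [Field K] [NumberField K] [IsTotallyComplex K] [Algebra F K]
    (hFK : Module.finrank F K = 2) : ¬ IsSquare (algebraMap F K w) := by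
  rintro ⟨s, hs⟩
  have hs' : ∏ i, (s ^ 2 - ((a i * t : ℤ) : K) ^ 2) = 1 := by
    rw [pow_two s, ← hs]
    have h1 := congrArg (algebraMap F K) hw
    rw [map_prod, map_one] at h1
    rw [← h1]
    refine Finset.prod_congr rfl fun i _ => ?_
    rw [map_sub, map_pow, map_intCast]
  have h1 := (sub_deg hd a ha0 ha ht s hs').1
  have h2 := (F_deg hd a ha ht F w hw hgen).1
  have h3 : Module.finrank ℚ K = d + d := by
    rw [← Module.finrank_mul_finrank ℚ F K, h2, hFK]
    ring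
  have h4 : ℚ⟮s⟯ = (⊤ : IntermediateField ℚ K) := by
    apply IntermediateField.eq_of_le_of_finrank_eq le_top
    rw [h1, IntermediateField.finrank_top', h3]
  have h5 := (E_deg hd a ha0 ha ht K s hs' h4).2
  obtain ⟨v⟩ : Nonempty (InfinitePlace K) := inferInstance
  exact (InfinitePlace.not_isReal_iff_isComplex.2 (IsTotallyComplex.isComplex v))
    (IsTotallyReal.isReal v)

/-- the reduction to Leopoldt's conjecture for `ℚ(√w)` -/
theorem sigma_of (p : ℕ) [Fact p.Prime]
    (hL : ∀ (E : Type) [Field E] [NumberField E] (θ : E),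
      ∏ i, (θ ^ 2 - ((a i * t : ℤ) : E) ^ 2) = 1 → IntermediateField.adjoin ℚ {θ} = ⊤ →
      Leopoldt E p)
    (F : Type) [Field F] [NumberField F] (w : F)
    (hw : ∏ i, (w - ((a i * t : ℤ) : F) ^ 2) = 1) (hgen : IntermediateField.adjoin ℚ {w} = ⊤)
    (K : Type) [Field K] [NumberField K] [IsTotallyComplex K] [Algebra F K]
    (hFK : Module.finrank F K = 2)
    (H : Type) [Field H] [NumberField H] [Algebra K H] (θ : H) (hKH : Module.finrank K H = 2)
    (hθ : θ ^ 2 = algebraMap K H (algebraMap F K w)) (S : Set (K →+* ℂ_[p]))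
    (hS : IsCMType p F K S) (χ : (H ≃ₐ[K] H) →* ℂ_[p]ˣ) : SigmaLeopoldt p K H S χ := by
  set f : F →+* H := (algebraMap K H).comp (algebraMap F K) with hf
  have hθ' : ∏ i, (θ ^ 2 - ((a i * t : ℤ) : H) ^ 2) = 1 := by
    have h1 := congrArg f hw
    rw [map_prod, map_one] at h1
    rw [← h1]
    refine Finset.prod_congr rfl fun i _ => ?_
    rw [map_sub, map_pow, map_intCast, hθ]
    rfl
  obtain ⟨hE1, hE2⟩ := sub_deg hd a ha0 ha ht θ hθ'
  have hEL : Leopoldt (ℚ⟮θ⟯) p := by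
    refine hL (ℚ⟮θ⟯) (AdjoinSimple.gen ℚ θ) ?_ (gen_top θ)
    apply (algebraMap (ℚ⟮θ⟯) H).injective
    rw [map_prod, map_one, ← hθ']
    refine Finset.prod_congr rfl fun i _ => ?_
    rw [map_sub, map_pow, map_pow, map_intCast, AdjoinSimple.algebraMap_gen]
  have htop : Algebra.adjoin ℚ {w} = ⊤ := by
    rw [← IntermediateField.adjoin_simple_toSubalgebra_of_isAlgebraic
      (Algebra.IsAlgebraic.isAlgebraic _), hgen]
    rfl
  have hmem : ∀ z : F, f z ∈ (ℚ⟮θ⟯ : IntermediateField ℚ H) := by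
    intro z
    have hz : z ∈ Algebra.adjoin ℚ {w} := by rw [htop]; trivial
    induction hz using Algebra.adjoin_induction with
    | mem z hz =>
      rw [Set.mem_singleton_iff] at hz
      subst hz
      have : f z = θ ^ 2 := hθ.symm
      rw [this]
      exact pow_mem (mem_adjoin_simple_self _ _) 2
    | algebraMap q =>
      have : f (algebraMap ℚ F q) = ((q : ℚ) : H) := by simp
      rw [this]
      exact SubfieldClass.ratCast_mem _ q
    | add a b _ _ ha hb => rw [map_add]; exact add_mem ha hb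
    | mul a b _ _ ha hb => rw [map_mul]; exact mul_mem ha hb
  letI alg : Algebra F (ℚ⟮θ⟯) := (f.codRestrict (ℚ⟮θ⟯).toSubring hmem).toAlgebra
  have hFd := (F_deg hd a ha ht F w hw hgen).1
  have hKd : Module.finrank ℚ K = d + d := by
    rw [← Module.finrank_mul_finrank ℚ F K, hFd, hFK]
    ring
  have hEH : Module.finrank (ℚ⟮θ⟯) H = 2 := by
    have h1 := Module.finrank_mul_finrank ℚ (ℚ⟮θ⟯) H
    have h2 := Module.finrank_mul_finrank ℚ K H
    rw [hKd, hKH] at h2
    rw [hE1, ← h2] at h1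
    exact Nat.eq_of_mul_eq_mul_left (by omega) h1
  exact Pool.Agent.Y419.LC.sig p F K (ℚ⟮θ⟯) H hE2 inferInstance hFK hEH (fun x => rfl)
    (Pool.Agent.Y419.LC.lcp p (ℚ⟮θ⟯) hEL) S hS χ

end fields

open Polynomial Pool.Agent.H33R4 in
/-- Leopoldt's conjecture for `ℚ(θ)` -/
theorem leo (p : ℕ) [Fact p.Prime] (d : ℕ) (hd : 1 ≤ d) (a : Fin d → ℤ) (ha0 : ∀ i, a i ≠ 0)
    (ha : Function.Injective fun i => |a i|) :
    ∃ S : Finset ℤ, ∀ t ∉ S, ∀ (E : Type) [Field E] [NumberField E] (θ : E),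
      ∏ i, (θ ^ 2 - ((a i * t : ℤ) : E) ^ 2) = 1 → IntermediateField.adjoin ℚ {θ} = ⊤ →
      Leopoldt E p := by
  obtain ⟨S, hS⟩ := explicit p (d + d) 0 (by omega) (dbl a) (fun i => i.elim0) (fun i => i.elim0)
    (dbl_inj a ha0 ha) (fun i => i.elim0) (fun i => i.elim0)
  refine ⟨S, fun t ht E _ _ θ hθ hgen => ?_⟩
  refine ((hS t ht).2 E θ ?_ hgen).2.2
  have h1 : spec t (fam (dbl a) (fun i : Fin 0 => i.elim0) (fun i : Fin 0 => i.elim0)) =
      ∏ i, (X - C (dbl a i * t)) - 1 := by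
    unfold fam spec
    rw [Polynomial.map_sub, Polynomial.map_one, Polynomial.map_prod, Fintype.prod_sum_type]
    simp [fac]
  rw [h1, map_sub, map_one, map_prod, sub_eq_zero, ← hθ, ← prod_dbl]
  refine Finset.prod_congr rfl fun i _ => ?_
  simp

end Pool.Agent.R89.RQ
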